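import Pool.Agent.P.MP_361790_al.Main

open Pool.Agent.P.MP_361790_al in
theorem Pool.Agent.Results.MP_361790_al.NoAdo.result.{u, v} (K : Type u) [Field K]
    (h2 : ringChar K ≠ 2) :
    ∃ mul : (Fin 5 → K) →ₗ[K] (Fin 5 → K) →ₗ[K] (Fin 5 → K),
      IsCD (fun x y => mul x y) ∧
      ∀ (M : Type v) [AddCommGroup M] [Module K M] (act : (Fin 5 → K) →ₗ[K] M →ₗ[K] M),
        IsCD (fun p q : (Fin 5 → K) × M => (mul p.1 q.1, act p.1 q.2 - act q.1 p.2)) →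
        ∃ a : Fin 5 → K, a ≠ 0 ∧ ∀ m : M, act a m = 0 :=
  Pool.Agent.P.MP_361790_al.main K h2
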